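import Mathlib

/-!
# Project HP, block C1: group actions on six points

A finite group acts on six points, no point is fixed by all elements and every element fixes a
point. Then there are three orbits with two elements, and every element swaps the points of none or
of exactly two of them.
-/

set_option autoImplicit false
set_option linter.unusedSectionVars false

namespace Pool.Agent.HP.Six

open Finset Equiv

variable {G Ω : Type*} [Group G] [Fintype G] [Fintype Ω] [DecidableEq Ω] [MulAction G Ω]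

/-- the orbit -/
def orb (G : Type*) [Group G] [Fintype G] {Ω : Type*} [DecidableEq Ω] [MulAction G Ω] (x : Ω) :
    Finset Ω := univ.image fun g : G => g • x

theorem mem_orb {x y : Ω} : y ∈ orb G x ↔ ∃ g : G, g • x = y := by
  simp [orb]

theorem self_mem (x : Ω) : x ∈ orb G x := mem_orb.2 ⟨1, one_smul _ _⟩

theorem smul_mem {x y : Ω} (g : G) (h : y ∈ orb G x) : g • y ∈ orb G x := by
  obtain ⟨k, rfl⟩ := mem_orb.1 h
  exact mem_orb.2 ⟨g * k, mul_smul _ _ _⟩

theorem orb_eq {x y : Ω} (h : y ∈ orb G x) : orb G y = orb G x := by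
  obtain ⟨k, rfl⟩ := mem_orb.1 h
  ext z
  rw [mem_orb, mem_orb]
  constructor
  · rintro ⟨g, rfl⟩
    exact ⟨g * k, mul_smul _ _ _⟩
  · rintro ⟨g, rfl⟩
    exact ⟨g * k⁻¹, by rw [mul_smul, inv_smul_smul]⟩

theorem orb_disj {x y : Ω} (h : y ∉ orb G x) : Disjoint (orb G x) (orb G y) := by
  rw [Finset.disjoint_left]
  intro z h1 h2
  apply h
  rw [← orb_eq h1, orb_eq h2]
  exact self_mem y

/-- the number of group elements which fix `x` -/
def stb (G : Type*) [Group G] [Fintype G] {Ω : Type*} [DecidableEq Ω] [MulAction G Ω] (x : Ω) : ℕ :=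
  (univ.filter fun g : G => g • x = x).card

/-- the number of fixed points in `A` -/
def fx {G : Type*} [Group G] {Ω : Type*} [DecidableEq Ω] [MulAction G Ω] (A : Finset Ω) (g : G) :
    ℕ := (A.filter fun y => g • y = y).card

theorem card_mul (x : Ω) : (orb G x).card * stb G x = Fintype.card G := by
  classical
  have h1 := Finset.card_eq_sum_card_fiberwise (f := fun g : G => g • x) (s := univ) (t := orb G x)
    (fun g _ => mem_coe.2 (mem_orb.2 ⟨g, rfl⟩))
  rw [card_univ] at h1
  rw [h1]
  have h2 : ∀ y ∈ orb G x, (univ.filter fun g : G => g • x = y).card = stb G x := by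
    intro y hy
    obtain ⟨k, rfl⟩ := mem_orb.1 hy
    have h3 : (univ.filter fun g : G => g • x = k • x) =
        (univ.filter fun g : G => g • x = x).image (k * ·) := by
      ext g
      simp only [mem_filter, mem_univ, true_and, mem_image]
      constructor
      · intro h
        exact ⟨k⁻¹ * g, by rw [mul_smul, h, inv_smul_smul], by group⟩
      · rintro ⟨h, h1, rfl⟩
        rw [mul_smul, h1]
    rw [h3, card_image_of_injective _ (mul_right_injective k), stb]
  rw [sum_congr rfl h2, sum_const, smul_eq_mul]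

theorem sum_fx (A : Finset Ω) : ∑ g : G, fx A g = ∑ y ∈ A, stb G y := by
  simp only [fx, stb, card_filter]
  exact sum_comm

/-- Burnside for an orbit -/
theorem sum_orb (x : Ω) : ∑ g : G, fx (orb G x) g = Fintype.card G := by
  rw [sum_fx]
  have h1 : ∀ y ∈ orb G x, (orb G x).card * stb G y = Fintype.card G := fun y hy => by
    rw [← orb_eq hy]
    exact card_mul y
  have h2 : 0 < (orb G x).card := card_pos.2 ⟨x, self_mem x⟩
  have h3 : (orb G x).card * ∑ y ∈ orb G x, stb G y = (orb G x).card * Fintype.card G := by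
    rw [mul_sum, sum_congr rfl h1, sum_const, smul_eq_mul]
  exact Nat.eq_of_mul_eq_mul_left h2 h3

/-- Burnside for an invariant set -/
theorem le_sum (A : Finset Ω) (hA : A.Nonempty) (h : ∀ y ∈ A, ∀ g : G, g • y ∈ A) :
    Fintype.card G ≤ ∑ g : G, fx A g := by
  rw [sum_fx]
  have h1 : ∀ y ∈ A, Fintype.card G ≤ A.card * stb G y := fun y hy => by
    rw [← card_mul y]
    refine Nat.mul_le_mul_right _ (card_le_card fun z hz => ?_)
    obtain ⟨g, rfl⟩ := mem_orb.1 hz
    exact h y hy g
  have h2 : 0 < A.card := card_pos.2 hA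
  have h3 : A.card * Fintype.card G ≤ A.card * ∑ y ∈ A, stb G y := by
    rw [mul_sum, ← smul_eq_mul (A.card), ← sum_const]
    exact sum_le_sum h1
  exact Nat.le_of_mul_le_mul_left h3 h2

/-- the permutation of an invariant set -/
theorem transfer {A : Finset Ω} {n : ℕ} (hA : A.card = n) (g : G) (hg : ∀ y ∈ A, g • y ∈ A) :
    ∃ (e : Fin n ≃ A) (t : Perm (Fin n)), ∀ i, ((e (t i) : A) : Ω) = g • ((e i : A) : Ω) := by
  have e : Fin n ≃ A := (A.equivFinOfCardEq hA).symm
  have hinj : Function.Injective fun i => e.symm ⟨g • ((e i : A) : Ω), hg _ (e i).2⟩ := by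
    intro i j h
    have h1 := e.symm.injective h
    have h2 : g • ((e i : A) : Ω) = g • ((e j : A) : Ω) := congrArg Subtype.val h1
    exact e.injective (Subtype.ext (smul_left_cancel g h2))
  refine ⟨e, Equiv.ofBijective _ (Finite.injective_iff_bijective.1 hinj), fun i => ?_⟩
  rw [Equiv.ofBijective_apply, Equiv.apply_symm_apply]

theorem perm3a : ∀ t : Perm (Fin 3), (∀ i, t i ≠ i) → ∀ i, t (t (t i)) = i := by decide +kernel

theorem perm3b : ∀ t : Perm (Fin 3), (∃ i, t i = i) → ∀ i, t (t i) = i := by decide +kernel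

theorem perm4 : ∀ t : Perm (Fin 4), (∃ i, t i = i ∧ ∀ j, t j = j → j = i) →
    ∀ i, t (t (t i)) = i := by decide +kernel

theorem cube3 {A : Finset Ω} (hA : A.card = 3) (g : G) (hg : ∀ y ∈ A, g • y ∈ A)
    (h : ∀ y ∈ A, g • y ≠ y) : ∀ y ∈ A, g • g • g • y = y := by
  obtain ⟨e, t, ht⟩ := transfer hA g hg
  intro y hy
  obtain ⟨i, hi⟩ := e.surjective ⟨y, hy⟩
  have h1 := perm3a t (fun i hi => h _ (e i).2 (by rw [← ht i, hi])) i
  have h2 : g • g • g • ((e i : A) : Ω) = ((e i : A) : Ω) := by
    rw [← ht, ← ht, ← ht, h1]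
  rw [hi] at h2
  exact h2

theorem sq3 {A : Finset Ω} (hA : A.card = 3) (g : G) (hg : ∀ y ∈ A, g • y ∈ A)
    (h : ∃ y ∈ A, g • y = y) : ∀ y ∈ A, g • g • y = y := by
  obtain ⟨e, t, ht⟩ := transfer hA g hg
  obtain ⟨z, hz, hgz⟩ := h
  obtain ⟨j, hj⟩ := e.surjective ⟨z, hz⟩
  have hj' : ((e j : A) : Ω) = z := by rw [hj]
  intro y hy
  obtain ⟨i, hi⟩ := e.surjective ⟨y, hy⟩
  have h1 := perm3b t ⟨j, e.injective (Subtype.ext (by rw [ht j, hj', hgz]))⟩ i
  have h2 : g • g • ((e i : A) : Ω) = ((e i : A) : Ω) := by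
    rw [← ht, ← ht, h1]
  rw [hi] at h2
  exact h2

theorem cube4 {A : Finset Ω} (hA : A.card = 4) (g : G) (hg : ∀ y ∈ A, g • y ∈ A)
    (h : fx A g = 1) : ∀ y ∈ A, g • g • g • y = y := by
  obtain ⟨e, t, ht⟩ := transfer hA g hg
  rw [fx, card_eq_one] at h
  obtain ⟨z, hz⟩ := h
  have hz1 : z ∈ A ∧ g • z = z := by
    have : z ∈ A.filter fun y => g • y = y := by
      rw [hz]
      exact mem_singleton_self z
    rwa [mem_filter] at this
  obtain ⟨j, hj⟩ := e.surjective ⟨z, hz1.1⟩
  have hj' : ((e j : A) : Ω) = z := by rw [hj]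
  intro y hy
  obtain ⟨i, hi⟩ := e.surjective ⟨y, hy⟩
  have h1 := perm4 t ⟨j, e.injective (Subtype.ext (by rw [ht j, hj', hz1.2])), fun k hk => by
    have h3 : ((e k : A) : Ω) ∈ A.filter fun y => g • y = y := by
      rw [mem_filter]
      exact ⟨(e k).2, by rw [← ht k, hk]⟩
    rw [hz, mem_singleton, ← hj'] at h3
    exact e.injective (Subtype.ext h3)⟩ i
  have h2 : g • g • g • ((e i : A) : Ω) = ((e i : A) : Ω) := by
    rw [← ht, ← ht, ← ht, h1]
  rw [hi] at h2
  exact h2

/-- Jordan: an element without fixed point in an orbit with at least two elements -/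
theorem jordan {x : Ω} (h2 : 2 ≤ (orb G x).card) : ∃ g : G, ∀ y ∈ orb G x, g • y ≠ y := by
  classical
  by_contra hcon
  push Not at hcon
  have h1 : ∀ g : G, 1 ≤ fx (orb G x) g := fun g => by
    obtain ⟨y, hy, hgy⟩ := hcon g
    exact card_pos.2 ⟨y, mem_filter.2 ⟨hy, hgy⟩⟩
  have h3 : fx (orb G x) (1 : G) = (orb G x).card := by
    rw [fx, filter_true_of_mem fun y _ => one_smul G y]
  have h4 : ∑ g : G, 1 < ∑ g : G, fx (orb G x) g :=
    sum_lt_sum (fun g _ => h1 g) ⟨1, mem_univ _, by rw [h3]; omega⟩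
  rw [sum_orb, sum_const, smul_eq_mul, mul_one, card_univ] at h4
  exact lt_irrefl _ h4

/-- two orbits with three elements -/
theorem case33 {x y : Ω} (hx : (orb G x).card = 3) (hy : (orb G y).card = 3)
    (hu : ∀ z, z ∈ orb G x ∨ z ∈ orb G y) : ∃ g : G, ∀ z : Ω, g • z ≠ z := by
  by_contra hcon
  push Not at hcon
  -- an element without fixed point on one orbit which is trivial on the other one
  have key : ∀ x y : Ω, (orb G x).card = 3 → (orb G y).card = 3 →
      (∀ z, z ∈ orb G x ∨ z ∈ orb G y) →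
      ∃ g : G, (∀ z ∈ orb G x, g • z ≠ z) ∧ ∀ z ∈ orb G y, g • z = z := by
    intro x y hx hy hu
    obtain ⟨g, hg⟩ := jordan (G := G) (x := x) (by omega)
    obtain ⟨w, hw⟩ := hcon g
    have hwy : w ∈ orb G y := (hu w).resolve_left fun h => hg w h hw
    have h3 := cube3 hx g (fun z hz => smul_mem g hz) hg
    have h2 := sq3 hy g (fun z hz => smul_mem g hz) ⟨w, hwy, hw⟩
    refine ⟨g * g * g * g, fun z hz => ?_, fun z hz => ?_⟩
    · rw [mul_smul, mul_smul, mul_smul, h3 _ (smul_mem g hz)]
      exact hg z hz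
    · rw [mul_smul, mul_smul, mul_smul, h2 z hz, h2 z hz]
  obtain ⟨a, ha1, ha2⟩ := key x y hx hy hu
  obtain ⟨b, hb1, hb2⟩ := key y x hy hx fun z => (hu z).symm
  obtain ⟨z, hz⟩ := hcon (a * b)
  rw [mul_smul] at hz
  rcases hu z with h | h
  · rw [hb2 z h] at hz
    exact ha1 z h hz
  · rw [ha2 _ (smul_mem b h)] at hz
    exact hb1 z h hz

theorem pair_of {x : Ω} (hx : (orb G x).card = 2) : ∃ y, y ≠ x ∧ orb G x = {x, y} := by
  obtain ⟨a, b, hab, h⟩ := card_eq_two.1 hx
  have h1 := self_mem (G := G) x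
  rw [h, mem_insert, mem_singleton] at h1
  rcases h1 with rfl | rfl
  · exact ⟨b, hab.symm, h⟩
  · exact ⟨a, hab, by rw [h, pair_comm]⟩

theorem pair_act {x y : Ω} (hy : y ≠ x) (h : orb G x = {x, y}) (g : G) :
    (g • x = x ∧ g • y = y) ∨ (g • x = y ∧ g • y = x) := by
  have h1 : g • x ∈ orb G x := smul_mem g (self_mem x)
  have h2 : g • y ∈ orb G x := smul_mem g (by rw [h]; simp)
  rw [h, mem_insert, mem_singleton] at h1 h2
  rcases h1 with h1 | h1 <;> rcases h2 with h2 | h2
  · exact absurd (smul_left_cancel g (h2.trans h1.symm)) hy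
  · exact Or.inl ⟨h1, h2⟩
  · exact Or.inr ⟨h1, h2⟩
  · exact absurd (smul_left_cancel g (h2.trans h1.symm)) hy

/-- orbits with four and two elements -/
theorem case42 {x y : Ω} (hx : (orb G x).card = 4) (hy : (orb G y).card = 2)
    (hu : ∀ z, z ∈ orb G x ∨ z ∈ orb G y) : ∃ g : G, ∀ z : Ω, g • z ≠ z := by
  classical
  by_contra hcon
  push Not at hcon
  obtain ⟨y', hy', hoy⟩ := pair_of hy
  -- elements which swap `y, y'` have a fixed point in the orbit of `x`
  have h1 : ∀ g : G, g • y ≠ y → 1 ≤ fx (orb G x) g := by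
    intro g hg
    obtain ⟨w, hw⟩ := hcon g
    have hwx : w ∈ orb G x := by
      refine (hu w).resolve_right fun h => ?_
      rw [hoy, mem_insert, mem_singleton] at h
      rcases pair_act hy' hoy g with h2 | h2
      · exact hg h2.1
      · rcases h with rfl | rfl
        · exact hg hw
        · exact hy' (hw.symm.trans h2.2)
    exact card_pos.2 ⟨w, mem_filter.2 ⟨hwx, hw⟩⟩
  -- the stabilizer of `y`
  have h2 : ∑ g ∈ univ.filter (fun g : G => g • y = y), 1 ≤
      ∑ g ∈ univ.filter (fun g : G => g • y = y), fx (orb G x) g := by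
    have h3 := le_sum (G := MulAction.stabilizer G y) (orb G x) ⟨x, self_mem x⟩
      (fun z hz g => smul_mem (g : G) hz)
    have e1 : ∀ F : G → ℕ, ∑ g ∈ univ.filter (fun g : G => g • y = y), F g =
        ∑ g : MulAction.stabilizer G y, F (g : G) := fun F =>
      Finset.sum_subtype _ (fun g => by simp [MulAction.mem_stabilizer_iff]) F
    rw [e1, e1, sum_const, smul_eq_mul, mul_one, card_univ]
    exact h3
  have h3 : (univ.filter (fun g : G => ¬ g • y = y)).card = (univ.filter fun g : G => g • y = y).card := by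
    have h4 := card_mul (G := G) y
    rw [hy, stb] at h4
    have h5 := Finset.card_filter_add_card_filter_not (s := (univ : Finset G)) (fun g : G => g • y = y)
    rw [card_univ] at h5
    omega
  have h4 := sum_orb (G := G) x
  rw [← sum_filter_add_sum_filter_not univ (fun g : G => g • y = y)] at h4
  have h5 : ∑ g ∈ univ.filter (fun g : G => ¬ g • y = y), fx (orb G x) g ≤
      ∑ g ∈ univ.filter (fun g : G => ¬ g • y = y), 1 := by
    have h6 := card_mul (G := G) y
    rw [hy, stb] at h6
    rw [sum_const, smul_eq_mul, mul_one] at h2 ⊢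
    omega
  have h6 : ∀ g : G, g • y ≠ y → fx (orb G x) g = 1 := by
    have h7 := (sum_eq_sum_iff_of_le (s := univ.filter (fun g : G => ¬ g • y = y))
      (f := fun _ => 1) (g := fx (orb G x)) fun g hg => h1 g (mem_filter.1 hg).2).1
      (le_antisymm (sum_le_sum fun g hg => h1 g (mem_filter.1 hg).2) h5)
    intro g hg
    exact (h7 g (mem_filter.2 ⟨mem_univ _, hg⟩)).symm
  obtain ⟨g, hg⟩ : ∃ g : G, g • y = y' := by
    rw [← mem_orb, hoy]
    simp
  have hgy' : g • y' = y := by
    rcases pair_act hy' hoy g with h2 | h2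
    · exact absurd (h2.1.symm.trans hg).symm hy'
    · exact h2.2
  have hg1 : g • y ≠ y := by rw [hg]; exact hy'
  have hg3 : (g * g * g) • y ≠ y := by
    rw [mul_smul, mul_smul, hg, hgy', hg]
    exact hy'
  have h8 := cube4 hx g (fun z hz => smul_mem g hz) (h6 g hg1)
  have h9 := h6 _ hg3
  rw [fx, filter_true_of_mem fun z hz => by rw [mul_smul, mul_smul]; exact h8 z hz, hx] at h9
  omega

/-- **The action on six points.** -/
theorem six (h6 : Fintype.card Ω = 6) (hm : ∀ x : Ω, ∃ g : G, g • x ≠ x)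
    (hf : ∀ g : G, ∃ x : Ω, g • x = x) :
    ∃ x y : Fin 3 → Ω, (∀ z, ∃ i, z = x i ∨ z = y i) ∧ (∀ i, y i ≠ x i) ∧
      (∀ (g : G) i, (g • x i = x i ∧ g • y i = y i) ∨ (g • x i = y i ∧ g • y i = x i)) ∧
      ∀ g : G, (∀ i, g • x i = x i) ∨ ∃ i, g • x i = x i ∧ ∀ j, j ≠ i → g • x j = y j := by
  classical
  have hno : ¬ ∃ g : G, ∀ z : Ω, g • z ≠ z := by
    rintro ⟨g, hg⟩
    obtain ⟨x, hx⟩ := hf g
    exact hg x hx
  have h2 : ∀ x : Ω, 2 ≤ (orb G x).card := by
    intro x
    obtain ⟨g, hg⟩ := hm x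
    have h3 : ({x, g • x} : Finset Ω) ⊆ orb G x := by
      intro z hz
      rw [mem_insert, mem_singleton] at hz
      rcases hz with rfl | rfl
      · exact self_mem _
      · exact smul_mem g (self_mem x)
    have h4 := card_le_card h3
    rwa [card_pair hg.symm] at h4
  have hne : Nonempty Ω := Fintype.card_pos_iff.1 (by omega)
  obtain ⟨x⟩ := hne
  -- the first orbit is not everything
  obtain ⟨y, hy⟩ : ∃ y, y ∉ orb G x := by
    by_contra hcon
    push Not at hcon
    obtain ⟨g, hg⟩ := jordan (G := G) (h2 x)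
    exact hno ⟨g, fun z => hg z (hcon z)⟩
  have dxy := orb_disj hy
  -- two orbits are not everything
  obtain ⟨z, hz⟩ : ∃ z, z ∉ orb G x ∪ orb G y := by
    by_contra hcon
    push Not at hcon
    have hu : ∀ z, z ∈ orb G x ∨ z ∈ orb G y := fun z => mem_union.1 (hcon z)
    have h3 : (orb G x).card + (orb G y).card = 6 := by
      rw [← card_union_of_disjoint dxy, ← h6, ← card_univ]
      exact congrArg card (eq_univ_of_forall hcon)
    have hx2 := h2 x
    have hy2 := h2 y
    have h4 : (orb G x).card = 2 ∨ (orb G x).card = 3 ∨ (orb G x).card = 4 := by omega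
    rcases h4 with h4 | h4 | h4
    · exact hno (case42 (by omega : (orb G y).card = 4) h4 fun z => (hu z).symm)
    · exact hno (case33 h4 (by omega) hu)
    · exact hno (case42 h4 (by omega) hu)
  have dz := hz
  rw [mem_union, not_or] at dz
  have dxz := orb_disj dz.1
  have dyz := orb_disj dz.2
  have dd : Disjoint (orb G x ∪ orb G y) (orb G z) := disjoint_union_left.2 ⟨dxz, dyz⟩
  have h3 : (orb G x).card + (orb G y).card + (orb G z).card ≤ 6 := by
    rw [← card_union_of_disjoint dxy, ← card_union_of_disjoint dd, ← h6]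
    exact card_le_univ _
  have hx2 := h2 x
  have hy2 := h2 y
  have hz2 := h2 z
  have hu : ∀ t, t ∈ orb G x ∪ orb G y ∪ orb G z := by
    have h4 : (orb G x ∪ orb G y ∪ orb G z).card = Fintype.card Ω := by
      rw [card_union_of_disjoint dd, card_union_of_disjoint dxy]
      omega
    intro t
    rw [(card_eq_iff_eq_univ _).1 h4]
    exact mem_univ t
  obtain ⟨x', hx', ox⟩ := pair_of (by omega : (orb G x).card = 2)
  obtain ⟨y', hy', oy⟩ := pair_of (by omega : (orb G y).card = 2)
  obtain ⟨z', hz', oz⟩ := pair_of (by omega : (orb G z).card = 2)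
  have ax := pair_act hx' ox
  have ay := pair_act hy' oy
  have az := pair_act hz' oz
  -- no element swaps all three pairs
  have n3 : ∀ g : G, ¬ (g • x = x' ∧ g • y = y' ∧ g • z = z') := by
    rintro g ⟨g1, g2, g3⟩
    obtain ⟨t, ht⟩ := hf g
    have ax := ax g
    have ay := ay g
    have az := az g
    have hut := hu t
    rw [ox, oy, oz] at hut
    simp only [mem_union, mem_insert, mem_singleton] at hut
    have ex : g • x' = x := by
      rcases ax with h | h
      · exact absurd (g1.symm.trans h.1) hx'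
      · exact h.2
    have ey : g • y' = y := by
      rcases ay with h | h
      · exact absurd (g2.symm.trans h.1) hy'
      · exact h.2
    have ez : g • z' = z := by
      rcases az with h | h
      · exact absurd (g3.symm.trans h.1) hz'
      · exact h.2
    rcases hut with ((rfl | rfl) | (rfl | rfl)) | (rfl | rfl)
    · exact hx' (g1.symm.trans ht)
    · exact hx' (ht.symm.trans ex)
    · exact hy' (g2.symm.trans ht)
    · exact hy' (ht.symm.trans ey)
    · exact hz' (g3.symm.trans ht)
    · exact hz' (ht.symm.trans ez)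
  -- the general form: three pairs
  have main : ∀ x x' y y' z z' : Ω, x' ≠ x → y' ≠ y → z' ≠ z →
      (∀ g : G, (g • x = x ∧ g • x' = x') ∨ (g • x = x' ∧ g • x' = x)) →
      (∀ g : G, (g • y = y ∧ g • y' = y') ∨ (g • y = y' ∧ g • y' = y)) →
      (∀ g : G, (g • z = z ∧ g • z' = z') ∨ (g • z = z' ∧ g • z' = z)) →
      (∀ g : G, ¬ (g • x = x' ∧ g • y = y' ∧ g • z = z')) →
      (∃ g : G, g • y ≠ y) → (∃ g : G, g • z ≠ z) →
      ∀ g : G, g • x = x' → ¬ (g • y = y ∧ g • z = z) := by
    rintro x x' y y' z z' hx' hy' hz' ax ay az n3 ⟨h, hh⟩ ⟨k, hk⟩ g gx ⟨gy, gz⟩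
    have gx' : g • x' = x := by
      rcases ax g with h | h
      · exact absurd (gx.symm.trans h.1) hx'
      · exact h.2
    -- an element which swaps `y` and `z` is impossible
    have A : ∀ h : G, h • y = y' → h • z = z' → False := by
      intro h h1 h2
      rcases ax h with h3 | h3
      · exact n3 (h * g) ⟨by rw [mul_smul, gx, h3.2], by rw [mul_smul, gy, h1],
          by rw [mul_smul, gz, h2]⟩
      · exact n3 h ⟨h3.1, h1, h2⟩
    have hy1 : h • y = y' ∧ h • y' = y := (ay h).resolve_left fun h1 => hh h1.1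
    have kz1 : k • z = z' ∧ k • z' = z := (az k).resolve_left fun h1 => hk h1.1
    have hz1 : h • z = z ∧ h • z' = z' := (az h).resolve_right fun h1 => A h hy1.1 h1.1
    have ky1 : k • y = y ∧ k • y' = y' := (ay k).resolve_right fun h1 => A k h1.1 kz1.1
    exact A (h * k) (by rw [mul_smul, ky1.1, hy1.1]) (by rw [mul_smul, kz1.1, hz1.2])
  have m1 := main x x' y y' z z' hx' hy' hz' ax ay az n3 (hm y) (hm z)
  have m2 := main y y' x x' z z' hy' hx' hz' ay ax az (fun g h => n3 g ⟨h.2.1, h.1, h.2.2⟩)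
    (hm x) (hm z)
  have m3 := main z z' x x' y y' hz' hx' hy' az ax ay (fun g h => n3 g ⟨h.2.1, h.2.2, h.1⟩)
    (hm x) (hm y)
  refine ⟨![x, y, z], ![x', y', z'], fun t => ?_, ?_, fun g => ?_, fun g => ?_⟩
  · have hut := hu t
    rw [ox, oy, oz] at hut
    simp only [mem_union, mem_insert, mem_singleton] at hut
    rcases hut with (h | h) | h
    · exact ⟨0, h⟩
    · exact ⟨1, h⟩
    · exact ⟨2, h⟩
  · intro i
    fin_cases i
    · exact hx'
    · exact hy'
    · exact hz'
  · intro i
    fin_cases i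
    · exact ax g
    · exact ay g
    · exact az g
  · rcases ax g with h1 | h1 <;> rcases ay g with h2 | h2 <;> rcases az g with h3 | h3
    · left
      intro i
      fin_cases i
      · exact h1.1
      · exact h2.1
      · exact h3.1
    · exact absurd ⟨h1.1, h2.1⟩ (m3 g h3.1)
    · exact absurd ⟨h1.1, h3.1⟩ (m2 g h2.1)
    · right
      refine ⟨0, h1.1, fun j hj => ?_⟩
      fin_cases j
      · exact absurd rfl hj
      · exact h2.1
      · exact h3.1
    · exact absurd ⟨h2.1, h3.1⟩ (m1 g h1.1)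
    · right
      refine ⟨1, h2.1, fun j hj => ?_⟩
      fin_cases j
      · exact h1.1
      · exact absurd rfl hj
      · exact h3.1
    · right
      refine ⟨2, h3.1, fun j hj => ?_⟩
      fin_cases j
      · exact h1.1
      · exact h2.1
      · exact absurd rfl hj
    · exact absurd ⟨h1.1, h2.1, h3.1⟩ (n3 g)

end Pool.Agent.HP.Six
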