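import Pool.Agent.Helper45.HP.Defs
import Pool.Agent.Helper47.HP.Six

/-!
# Project HP, block C1

A separable polynomial of degree `6` over `ℚ` without rational root, every Galois automorphism of
which fixes a root, is a product of three quadratic polynomials without rational root, and the
product of the three discriminants is a square.
-/

set_option autoImplicit false

namespace Pool.Agent.HP

namespace C1

open Polynomial

/-- the roots -/
abbrev Rt (f : ℚ[X]) (L : Type) [Field L] [Algebra ℚ L] : Type := {r : L // aeval r f = 0}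

variable {f : ℚ[X]} {L : Type} [Field L] [Algebra ℚ L]

instance : MulAction (L ≃ₐ[ℚ] L) (Rt f L) where
  smul g r := ⟨g r.1, by
    have := aeval_algHom_apply g r.1 f
    rw [this, r.2, map_zero]⟩
  one_smul r := Subtype.ext rfl
  mul_smul g h r := Subtype.ext rfl

theorem coe_smul (g : L ≃ₐ[ℚ] L) (r : Rt f L) : ((g • r : Rt f L) : L) = g r := rfl

/-- the data over `L` -/
theorem main (h6 : f.natDegree = 6) (hsep : f.Separable) (hnr : ∀ a : ℚ, eval a f ≠ 0)
    [FiniteDimensional ℚ L] [IsGalois ℚ L] (hs : (f.map (algebraMap ℚ L)).Splits)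
    (hfix : ∀ g : L ≃ₐ[ℚ] L, ∃ r : L, aeval r f = 0 ∧ g r = r) :
    ∃ x y : Fin 3 → L, (∀ i, y i ≠ x i) ∧
      f.map (algebraMap ℚ L) = C (algebraMap ℚ L f.leadingCoeff) *
        ∏ i, ((X - C (x i)) * (X - C (y i))) ∧
      (∀ (g : L ≃ₐ[ℚ] L) i, (g (x i) = x i ∧ g (y i) = y i) ∨ (g (x i) = y i ∧ g (y i) = x i)) ∧
      (∀ g : L ≃ₐ[ℚ] L, (∀ i, g (x i) = x i) ∨ ∃ i, g (x i) = x i ∧ ∀ j, j ≠ i → g (x j) = y j) ∧
      ∀ i, ∃ g : L ≃ₐ[ℚ] L, g (x i) ≠ x i := by
  classical
  have hf0 : f ≠ 0 := by
    rintro rfl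
    simp at h6
  let E : Rt f L ≃ f.rootSet L := Equiv.subtypeEquivRight fun r => (mem_rootSet_of_ne hf0).symm
  let _ : Fintype (Rt f L) := Fintype.ofEquiv _ E.symm
  have hcard : Fintype.card (Rt f L) = 6 := by
    rw [Fintype.card_congr E, card_rootSet_eq_natDegree hsep hs, h6]
  have hmove : ∀ r : Rt f L, ∃ g : L ≃ₐ[ℚ] L, g • r ≠ r := by
    intro r
    by_contra hcon
    push Not at hcon
    have h1 : ∀ g : L ≃ₐ[ℚ] L, g r.1 = r.1 := fun g => congrArg Subtype.val (hcon g)
    obtain ⟨a, ha⟩ := (IsGalois.mem_range_algebraMap_iff_fixed r.1).2 h1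
    apply hnr a
    have h2 := r.2
    rw [← ha, aeval_algebraMap_apply, map_eq_zero] at h2
    simpa [aeval_def] using h2
  have hf' : ∀ g : L ≃ₐ[ℚ] L, ∃ r : Rt f L, g • r = r := by
    intro g
    obtain ⟨r, hr, h⟩ := hfix g
    exact ⟨⟨r, hr⟩, Subtype.ext h⟩
  obtain ⟨x, y, hcov, hne, hg, hsg⟩ := Six.six hcard hmove hf'
  refine ⟨fun i => (x i).1, fun i => (y i).1, fun i h => hne i (Subtype.ext h), ?_, ?_, ?_, ?_⟩
  · -- the factorization
    have hroots : (f.map (algebraMap ℚ L)).roots
        = Multiset.map Subtype.val (Finset.univ : Finset (Rt f L)).val := by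
      rw [Multiset.Nodup.ext (nodup_roots hsep.map)
        (Multiset.Nodup.map Subtype.val_injective Finset.univ.nodup)]
      intro a
      rw [mem_roots (Polynomial.map_ne_zero hf0), Multiset.mem_map]
      constructor
      · intro ha
        refine ⟨⟨a, ?_⟩, Finset.mem_univ _, rfl⟩
        rw [IsRoot.def, eval_map_algebraMap] at ha
        exact ha
      · rintro ⟨r, _, rfl⟩
        rw [IsRoot.def, eval_map_algebraMap]
        exact r.2
    have h1 := hs.eq_prod_roots
    rw [hroots, Multiset.map_map] at h1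
    have h2 : (Multiset.map ((fun a : L => X - C a) ∘ Subtype.val)
        (Finset.univ : Finset (Rt f L)).val).prod = ∏ r : Rt f L, (X - C r.1) := rfl
    rw [h2] at h1
    rw [h1, leadingCoeff_map]
    refine congrArg (fun t : L[X] => C (algebraMap ℚ L f.leadingCoeff) * t) ?_
    -- the bijection
    let φ : Fin 3 × Fin 2 → Rt f L := fun t => ![x t.1, y t.1] t.2
    have hφ : Function.Bijective φ := by
      rw [Fintype.bijective_iff_surjective_and_card]
      constructor
      · intro z
        obtain ⟨i, h | h⟩ := hcov z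
        · exact ⟨(i, 0), h.symm⟩
        · exact ⟨(i, 1), h.symm⟩
      · rw [hcard]
        simp
    rw [← hφ.prod_comp (fun r : Rt f L => (X - C r.1 : L[X]))]
    rw [Fintype.prod_prod_type]
    refine Finset.prod_congr rfl fun i _ => ?_
    rw [Fin.prod_univ_two]
    rfl
  · intro g i
    rcases hg g i with h | h
    · exact Or.inl ⟨congrArg Subtype.val h.1, congrArg Subtype.val h.2⟩
    · exact Or.inr ⟨congrArg Subtype.val h.1, congrArg Subtype.val h.2⟩
  · intro g
    rcases hsg g with h | ⟨i, h, h'⟩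
    · exact Or.inl fun i => congrArg Subtype.val (h i)
    · exact Or.inr ⟨i, congrArg Subtype.val h, fun j hj => congrArg Subtype.val (h' j hj)⟩
  · intro i
    obtain ⟨g, h⟩ := hmove (x i)
    exact ⟨g, fun h' => h (Subtype.ext h')⟩

/-- a quadratic polynomial -/
noncomputable def quad (a b c : ℤ) : ℤ[X] := C a * X ^ 2 + C b * X + C c

theorem quad_disc (a b c : ℤ) : disc (quad a b c) = b ^ 2 - 4 * a * c := by
  have h0 : (quad a b c).coeff 0 = c := by
    rw [quad, coeff_add, coeff_add, coeff_C_mul, coeff_C_mul, coeff_X_pow, coeff_X, coeff_C]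
    norm_num
  have h1 : (quad a b c).coeff 1 = b := by
    rw [quad, coeff_add, coeff_add, coeff_C_mul, coeff_C_mul, coeff_X_pow, coeff_X, coeff_C]
    norm_num
  have h2 : (quad a b c).coeff 2 = a := by
    rw [quad, coeff_add, coeff_add, coeff_C_mul, coeff_C_mul, coeff_X_pow, coeff_X, coeff_C]
    norm_num
  rw [disc, h0, h1, h2]

theorem quad_map (a b c : ℤ) : (quad a b c).map (Int.castRingHom ℚ)
    = C (a : ℚ) * X ^ 2 + C (b : ℚ) * X + C (c : ℚ) := by
  rw [quad, Polynomial.map_add, Polynomial.map_add, Polynomial.map_mul, Polynomial.map_mul,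
    Polynomial.map_pow, map_X, Polynomial.map_C, Polynomial.map_C, Polynomial.map_C]
  rfl

/-- the integral quadratic polynomial -/
noncomputable def Q (s p : ℚ) : ℤ[X] :=
  quad (s.den * p.den : ℤ) (-(s.num * p.den)) (p.num * s.den)

theorem Q_deg (s p : ℚ) : (Q s p).natDegree = 2 := by
  refine natDegree_quadratic ?_
  have h1 := s.den_pos
  have h2 := p.den_pos
  positivity

theorem Q_map (s p : ℚ) : (Q s p).map (Int.castRingHom ℚ)
    = C ((s.den : ℚ) * p.den) * (X ^ 2 - C s * X + C p) := by
  have h1 : (s.num : ℚ) = s * s.den := (Rat.mul_den_eq_num s).symm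
  have h2 : (p.num : ℚ) = p * p.den := (Rat.mul_den_eq_num p).symm
  rw [Q, quad_map]
  push_cast
  rw [h1, h2]
  simp only [map_mul, map_neg]
  ring

theorem Q_disc (s p : ℚ) : (disc (Q s p) : ℚ) = ((s.den : ℚ) * p.den) ^ 2 * (s ^ 2 - 4 * p) := by
  have h1 : (s.num : ℚ) = s * s.den := (Rat.mul_den_eq_num s).symm
  have h2 : (p.num : ℚ) = p * p.den := (Rat.mul_den_eq_num p).symm
  rw [Q, quad_disc]
  push_cast
  rw [h1, h2]
  ring

end C1

open C1 Polynomial

/-- Block C1. -/
theorem stmtC1 : StmtC1 := by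
  intro f h6 hsep hnr L _ _ _ _ hs hfix
  obtain ⟨x, y, hne, hfac, hg, hsg, hmv⟩ := C1.main h6 hsep hnr hs hfix
  have hinj : Function.Injective (algebraMap ℚ L) := (algebraMap ℚ L).injective
  have h1 : ∀ i, ∃ s : ℚ, algebraMap ℚ L s = x i + y i := by
    intro i
    refine (IsGalois.mem_range_algebraMap_iff_fixed _).2 fun g => ?_
    rcases hg g i with h | h
    · rw [map_add, h.1, h.2]
    · rw [map_add, h.1, h.2, add_comm]
  have h2 : ∀ i, ∃ p : ℚ, algebraMap ℚ L p = x i * y i := by
    intro i
    refine (IsGalois.mem_range_algebraMap_iff_fixed _).2 fun g => ?_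
    rcases hg g i with h | h
    · rw [map_mul, h.1, h.2]
    · rw [map_mul, h.1, h.2, mul_comm]
  choose s hs' using h1
  choose p hp' using h2
  set D : Fin 3 → ℚ := fun i => ((s i).den : ℚ) * (p i).den with hD
  have hD0 : ∀ i, D i ≠ 0 := fun i => by
    have h1 := (s i).den_pos
    have h2 := (p i).den_pos
    simp only [hD]
    positivity
  have hf0 : f ≠ 0 := by
    rintro rfl
    simp at h6
  -- the discriminants in `L`
  have hdisc : ∀ i, algebraMap ℚ L (disc (Q (s i) (p i)) : ℚ)
      = (algebraMap ℚ L (D i) * (x i - y i)) ^ 2 := by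
    intro i
    have h4 : algebraMap ℚ L 4 = 4 := map_ofNat _ 4
    rw [Q_disc, map_mul, map_pow, map_sub, map_pow, map_mul _ 4, h4, hs' i, hp' i]
    ring
  have hfQ : f = C f.leadingCoeff * ∏ i, (X ^ 2 - C (s i) * X + C (p i)) := by
    apply map_injective (algebraMap ℚ L) hinj
    rw [hfac, Polynomial.map_mul, Polynomial.map_prod, map_C]
    refine congrArg (fun t : L[X] => C (algebraMap ℚ L f.leadingCoeff) * t) ?_
    refine Finset.prod_congr rfl fun i _ => ?_
    simp only [Polynomial.map_add, Polynomial.map_sub, Polynomial.map_mul, Polynomial.map_pow,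
      map_X, map_C, hs' i, hp' i, map_add, map_mul]
    ring
  refine ⟨fun i => Q (s i) (p i), fun i => Q_deg _ _, fun i hsq => ?_, ?_, ?_⟩
  · -- not a square
    obtain ⟨r, hr⟩ := hsq
    have hr' : disc (Q (s i) (p i)) = r * r := hr
    have e : (algebraMap ℚ L (D i) * (x i - y i)) ^ 2 = algebraMap ℚ L (r : ℚ) ^ 2 := by
      rw [← hdisc i, ← map_pow, hr']
      push_cast
      rw [pow_two]
    rw [sq_eq_sq_iff_eq_or_eq_neg] at e
    have hrat : ∃ t : ℚ, algebraMap ℚ L t = x i - y i := by
      have hD' : algebraMap ℚ L (D i) ≠ 0 := fun h => hD0 i (hinj (by rw [h, map_zero]))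
      rcases e with e | e
      · refine ⟨(r : ℚ) / D i, ?_⟩
        rw [map_div₀, ← e, mul_div_cancel_left₀ _ hD']
      · refine ⟨-(r : ℚ) / D i, ?_⟩
        rw [map_div₀, map_neg, ← e, mul_div_cancel_left₀ _ hD']
    obtain ⟨t, ht⟩ := hrat
    obtain ⟨g, hgi⟩ := hmv i
    apply hgi
    have a1 : g (x i - y i) = x i - y i := by rw [← ht, AlgEquiv.commutes]
    rcases hg g i with h | h
    · exact h.1
    · rw [map_sub, h.1, h.2] at a1
      exfalso
      apply hne i
      have a2 : (2 : L) * (y i - x i) = 0 := by linear_combination a1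
      rcases mul_eq_zero.1 a2 with a3 | a3
      · haveI : CharZero L := algebraRat.charZero L
        exact absurd a3 two_ne_zero
      · exact sub_eq_zero.1 a3
  · -- the product is a square
    rw [← Rat.isSquare_intCast_iff]
    have hfix' : ∀ g : L ≃ₐ[ℚ] L, g (∏ i, (algebraMap ℚ L (D i) * (x i - y i)))
        = ∏ i, (algebraMap ℚ L (D i) * (x i - y i)) := by
      intro g
      have hfx : ∀ i, g (x i) = x i → g (x i - y i) = x i - y i := by
        intro i hi
        rcases hg g i with h | h
        · rw [map_sub, h.1, h.2]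
        · exact absurd (h.1.symm.trans hi) (hne i)
      have hsw : ∀ i, g (x i) = y i → g (x i - y i) = -(x i - y i) := by
        intro i hi
        rcases hg g i with h | h
        · exact absurd (hi.symm.trans h.1) (hne i)
        · rw [map_sub, h.1, h.2, neg_sub]
      rw [map_prod]
      simp only [map_mul, AlgEquiv.commutes]
      rcases hsg g with h | ⟨i, h, h'⟩
      · exact Finset.prod_congr rfl fun i _ => by rw [hfx i (h i)]
      · rw [Fin.prod_univ_three, Fin.prod_univ_three]
        fin_cases i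
        · have b1 := hfx 0 h
          have b2 := hsw 1 (h' 1 (by decide))
          have b3 := hsw 2 (h' 2 (by decide))
          rw [b1, b2, b3]
          ring
        · have b1 := hfx 1 h
          have b2 := hsw 0 (h' 0 (by decide))
          have b3 := hsw 2 (h' 2 (by decide))
          rw [b1, b2, b3]
          ring
        · have b1 := hfx 2 h
          have b2 := hsw 0 (h' 0 (by decide))
          have b3 := hsw 1 (h' 1 (by decide))
          rw [b1, b2, b3]
          ring
    obtain ⟨r, hr⟩ := (IsGalois.mem_range_algebraMap_iff_fixed _).2 hfix'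
    refine ⟨r, hinj ?_⟩
    rw [Int.cast_prod, map_mul, hr, map_prod, ← pow_two, ← Finset.prod_pow]
    exact Finset.prod_congr rfl fun i _ => hdisc i
  · refine ⟨f.leadingCoeff / ∏ i, D i, div_ne_zero (leadingCoeff_ne_zero.2 hf0)
      (Finset.prod_ne_zero_iff.2 fun i _ => hD0 i), ?_⟩
    have e1 : ∀ i, (Q (s i) (p i)).map (Int.castRingHom ℚ)
        = C (D i) * (X ^ 2 - C (s i) * X + C (p i)) := fun i => Q_map _ _
    have e2 : ∏ i, C (D i) = (C (∏ i, D i) : ℚ[X]) := (map_prod C D Finset.univ).symm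
    rw [Polynomial.map_prod, Finset.prod_congr rfl fun i _ => e1 i,
      Finset.prod_mul_distrib (f := fun i => (C (D i) : ℚ[X])), e2, ← mul_assoc, ← C_mul, div_mul_cancel₀ _ (Finset.prod_ne_zero_iff.2 fun i _ => hD0 i)]
    exact hfQ

end Pool.Agent.HP
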