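import Pool.Agent.Helper45.HP.Defs

/-!
# Project HP, blocks E1 and E2

Few integers have a large smooth part (Markov's inequality and Mertens' upper bound); few integers
have no prime factor in a large set of primes (Turán's inequality).
-/

set_option autoImplicit false

namespace Pool.Agent.HP

open Finset Nat

/-! ### E2 -/

/-- the number of multiples of `m` up to `X` -/
theorem card_dvd (X m : ℕ) : (((Ioc 0 X).filter (m ∣ ·)).card : ℝ) ≤ X / m ∧
    (m ≠ 0 → (X : ℝ) / m - 1 ≤ ((Ioc 0 X).filter (m ∣ ·)).card) := by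
  rw [Nat.Ioc_filter_dvd_card_eq_div]
  refine ⟨Nat.cast_div_le, fun hm => ?_⟩
  have hm0 : (0 : ℝ) < m := by exact_mod_cast Nat.pos_of_ne_zero hm
  rw [sub_le_iff_le_add, div_le_iff₀ hm0]
  have h8 : X < m * (X / m + 1) := Nat.lt_mul_div_succ X (Nat.pos_of_ne_zero hm)
  have h9 : (X : ℝ) < m * ((X / m : ℕ) + 1) := by exact_mod_cast h8
  linarith

theorem sum_ind (X m : ℕ) : ∑ c ∈ Ioc 0 X, (if m ∣ c then (1 : ℝ) else 0) =
    ((Ioc 0 X).filter (m ∣ ·)).card := by
  rw [← sum_filter, sum_const, nsmul_eq_mul, mul_one]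

theorem stmtE2 : StmtE2 := by
  intro X T hT hne S hS
  obtain ⟨L, hL⟩ : ∃ L : ℝ, L = ∑ p ∈ T, (1 : ℝ) / p := ⟨_, rfl⟩
  rw [← hL]
  have hp0 : ∀ p ∈ T, (0 : ℝ) < p := fun p hp => by exact_mod_cast (hT p hp).1.pos
  have hL0 : 0 < L := by
    rw [hL]
    exact sum_pos (fun p hp => one_div_pos.2 (hp0 p hp)) hne
  -- the number of elements of `T`
  have hTX : T.card ≤ X := by
    have h1 : T ⊆ Ioc 0 X := fun p hp => by
      rw [mem_Ioc]
      have h2 := (hT p hp).1.pos
      have h3 := (hT p hp).2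
      exact ⟨h2, by nlinarith⟩
    simpa using card_le_card h1
  have hTX' : (T.card : ℝ) ≤ X := by exact_mod_cast hTX
  obtain ⟨w, hw⟩ : ∃ w : ℕ → ℝ, ∀ c, w c = ∑ p ∈ T, if p ∣ c then (1 : ℝ) else 0 :=
    ⟨_, fun _ => rfl⟩
  -- first moment
  have m1 : X * L - T.card ≤ ∑ c ∈ Ioc 0 X, w c := by
    have h1 : ∑ c ∈ Ioc 0 X, w c = ∑ p ∈ T, (((Ioc 0 X).filter (p ∣ ·)).card : ℝ) := by
      simp only [hw]
      rw [sum_comm]
      exact sum_congr rfl fun p _ => sum_ind X p
    have h2 : X * L - T.card = ∑ p ∈ T, ((X : ℝ) / p - 1) := by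
      rw [sum_sub_distrib, hL, mul_sum, sum_const, nsmul_eq_mul, mul_one]
      congr 1
      exact sum_congr rfl fun p _ => by ring
    rw [h1, h2]
    exact sum_le_sum fun p hp => (card_dvd X p).2 (hT p hp).1.ne_zero
  -- second moment
  have m2 : ∑ c ∈ Ioc 0 X, w c ^ 2 ≤ X * L ^ 2 + X * L := by
    have h1 : ∑ c ∈ Ioc 0 X, w c ^ 2 = ∑ p ∈ T, ∑ q ∈ T, ∑ c ∈ Ioc 0 X,
        (if p ∣ c then (1 : ℝ) else 0) * (if q ∣ c then (1 : ℝ) else 0) := by
      simp only [hw, sq, sum_mul_sum]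
      rw [sum_comm]
      exact sum_congr rfl fun p _ => by rw [sum_comm]
    have h2 : ∀ p ∈ T, ∀ q ∈ T, ∑ c ∈ Ioc 0 X,
        (if p ∣ c then (1 : ℝ) else 0) * (if q ∣ c then (1 : ℝ) else 0) ≤
        X * (1 / p * (1 / q)) + if q = p then (X : ℝ) * (1 / p) else 0 := by
      intro p hp q hq
      have hpp := hp0 p hp
      have hqq := hp0 q hq
      by_cases h : q = p
      · subst h
        rw [if_pos rfl]
        have h3 : ∑ c ∈ Ioc 0 X, (if q ∣ c then (1 : ℝ) else 0) * (if q ∣ c then (1 : ℝ) else 0)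
            = ((Ioc 0 X).filter (q ∣ ·)).card := by
          rw [← sum_ind]
          exact sum_congr rfl fun c _ => by split_ifs <;> norm_num
        rw [h3]
        have h4 := (card_dvd X q).1
        have h5 : (X : ℝ) / q = X * (1 / q) := by ring
        have h6 : 0 ≤ (X : ℝ) * (1 / q * (1 / q)) := by positivity
        linarith
      · rw [if_neg h, add_zero]
        have hco : Nat.Coprime p q := (Nat.coprime_primes (hT p hp).1 (hT q hq).1).2 (Ne.symm h)
        have h3 : ∑ c ∈ Ioc 0 X, (if p ∣ c then (1 : ℝ) else 0) * (if q ∣ c then (1 : ℝ) else 0)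
            = ((Ioc 0 X).filter (p * q ∣ ·)).card := by
          rw [← sum_ind]
          refine sum_congr rfl fun c _ => ?_
          by_cases h4 : p ∣ c
          · by_cases h5 : q ∣ c
            · rw [if_pos h4, if_pos h5, if_pos (hco.mul_dvd_of_dvd_of_dvd h4 h5), mul_one]
            · rw [if_neg h5, if_neg (fun h6 => h5 ((Dvd.intro_left p rfl).trans h6)), mul_zero]
          · rw [if_neg h4, if_neg (fun h6 => h4 ((Dvd.intro q rfl).trans h6)), zero_mul]
        rw [h3]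
        refine (card_dvd X (p * q)).1.trans (le_of_eq ?_)
        push_cast
        field_simp
    rw [h1]
    refine (sum_le_sum fun p hp => sum_le_sum fun q hq => h2 p hp q hq).trans (le_of_eq ?_)
    have h3 : ∀ p ∈ T, ∑ q ∈ T, ((X : ℝ) * (1 / p * (1 / q)) +
        if q = p then (X : ℝ) * (1 / p) else 0) = X * (1 / p * L) + X * (1 / p) := by
      intro p hp
      rw [sum_add_distrib, sum_ite_eq' T p, if_pos hp, ← mul_sum, ← mul_sum, hL]
    rw [sum_congr rfl h3, sum_add_distrib, ← mul_sum, ← sum_mul, ← mul_sum, ← hL]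
    ring
  -- the integers of `S`
  have hSI : S ⊆ Ioc 0 X := fun c hc => mem_Ioc.2 ⟨(hS c hc).1, (hS c hc).2.1⟩
  have hwS : ∀ c ∈ S, w c = 0 := fun c hc => by
    rw [hw]
    exact sum_eq_zero fun p hp => if_neg ((hS c hc).2.2 p hp)
  have h1 : (S.card : ℝ) * L ^ 2 ≤ ∑ c ∈ Ioc 0 X, (w c - L) ^ 2 := by
    have h2 : (S.card : ℝ) * L ^ 2 = ∑ c ∈ S, (w c - L) ^ 2 := by
      rw [sum_congr rfl fun c hc => by rw [hwS c hc], sum_const, nsmul_eq_mul]
      ring
    rw [h2]
    exact sum_le_sum_of_subset_of_nonneg hSI fun c _ _ => sq_nonneg _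
  have h2 : ∑ c ∈ Ioc 0 X, (w c - L) ^ 2 =
      ∑ c ∈ Ioc 0 X, w c ^ 2 - 2 * L * ∑ c ∈ Ioc 0 X, w c + X * L ^ 2 := by
    have h3 : ∀ c ∈ Ioc 0 X, (w c - L) ^ 2 = w c ^ 2 - 2 * L * w c + L ^ 2 := fun c _ => by ring
    rw [sum_congr rfl h3, sum_add_distrib, sum_sub_distrib, ← mul_sum, sum_const, nsmul_eq_mul]
    simp
  have h3 : (S.card : ℝ) * L * L ≤ 3 * X * L := by
    have h4 : 2 * L * (X * L - T.card) ≤ 2 * L * ∑ c ∈ Ioc 0 X, w c :=
      mul_le_mul_of_nonneg_left m1 (by linarith)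
    have h5 : 2 * L * T.card ≤ 2 * L * X := mul_le_mul_of_nonneg_left hTX' (by linarith)
    nlinarith
  exact le_of_mul_le_mul_right h3 hL0

/-! ### E1 -/

/-- Mertens' upper bound -/
theorem mertens_up (y : ℕ) (hy : 1 ≤ y) :
    ∑ p ∈ Nat.primesLE y, Real.log p / p ≤ Real.log y + Real.log 4 := by
  have hy0 : (0 : ℝ) < y := by exact_mod_cast hy
  have h1 : Real.log (y ! : ℕ) = ∑ p ∈ Nat.primesLE y, ((y !).factorization p : ℝ) * Real.log p := by
    rw [Real.log_nat_eq_sum_factorization, Finsupp.sum]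
    refine Finset.sum_subset (fun p hp => ?_) (fun p _ hp => ?_)
    · have h1 := Nat.prime_of_mem_primeFactors (n := y !) (by simpa using hp)
      have h2 : p ∣ y ! := Nat.dvd_of_mem_primeFactors (by simpa using hp)
      exact Nat.mem_primesLE.2 ⟨(h1.dvd_factorial).1 h2, h1⟩
    · rw [Finsupp.notMem_support_iff.1 hp]
      simp
  have h2 : ∀ p ∈ Nat.primesLE y, ((y : ℝ) / p - 1) * Real.log p ≤
      ((y !).factorization p : ℝ) * Real.log p := by
    intro p hp
    obtain ⟨hpy, hpp⟩ := Nat.mem_primesLE.1 hp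
    have hp0 : (0 : ℝ) < p := by exact_mod_cast hpp.pos
    have h3 : 0 ≤ Real.log p := Real.log_nonneg (by exact_mod_cast hpp.one_le)
    refine mul_le_mul_of_nonneg_right ?_ h3
    have h4 : y / p ≤ (y !).factorization p := by
      have h5 : (p * (y / p)) ! ∣ y ! := Nat.factorial_dvd_factorial (Nat.mul_div_le y p)
      have h6 := (Nat.factorization_le_iff_dvd (Nat.factorial_ne_zero _)
        (Nat.factorial_ne_zero _)).2 h5 p
      rw [Nat.factorization_factorial_mul hpp] at h6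
      omega
    have h7 : (y : ℝ) / p - 1 ≤ ((y / p : ℕ) : ℝ) := by
      rw [sub_le_iff_le_add, div_le_iff₀ hp0]
      have h8 : y < p * (y / p + 1) := Nat.lt_mul_div_succ y hpp.pos
      have h9 : (y : ℝ) < p * ((y / p : ℕ) + 1) := by exact_mod_cast h8
      linarith
    exact h7.trans (by exact_mod_cast h4)
  have h3 : ∑ p ∈ Nat.primesLE y, ((y : ℝ) / p - 1) * Real.log p ≤ y * Real.log y := by
    refine (Finset.sum_le_sum h2).trans ?_
    rw [← h1]
    have h4 : ((y ! : ℕ) : ℝ) ≤ (y : ℝ) ^ y := by exact_mod_cast Nat.factorial_le_pow y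
    calc Real.log (y ! : ℕ) ≤ Real.log ((y : ℝ) ^ y) :=
          Real.log_le_log (by exact_mod_cast Nat.factorial_pos y) h4
      _ = y * Real.log y := Real.log_pow _ _
  have h4 : ∑ p ∈ Nat.primesLE y, Real.log p ≤ Real.log 4 * y := by
    rw [← Chebyshev.theta_eq_sum_primesLE_log]
    exact Chebyshev.theta_le_log4_mul_x hy0.le
  have h5 : ∑ p ∈ Nat.primesLE y, ((y : ℝ) / p - 1) * Real.log p =
      y * ∑ p ∈ Nat.primesLE y, Real.log p / p - ∑ p ∈ Nat.primesLE y, Real.log p := by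
    rw [Finset.mul_sum, ← Finset.sum_sub_distrib]
    refine Finset.sum_congr rfl fun p _ => ?_
    ring
  have h6 : y * ∑ p ∈ Nat.primesLE y, Real.log p / p ≤ y * (Real.log y + Real.log 4) := by
    rw [h5] at h3
    linarith
  exact le_of_mul_le_mul_left h6 hy0

theorem stmtE1 : StmtE1 := by
  refine ⟨Real.log 4, Real.log_pos (by norm_num), fun M a b X ha hb hX S hS => ?_⟩
  have ha0 : (0 : ℝ) < a := by exact_mod_cast ha
  have hb0 : (0 : ℝ) < b := by exact_mod_cast hb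
  have hX0 : (0 : ℝ) < X := by exact_mod_cast (by omega : 0 < X)
  have hX1 : (1 : ℝ) < X := by exact_mod_cast (by omega : 1 < X)
  have hlX : 0 < Real.log X := Real.log_pos hX1
  -- the largest `y` with `y ^ b ≤ X`
  obtain ⟨y, hy1, hy2, hy3⟩ : ∃ y : ℕ, 1 ≤ y ∧ y ^ b ≤ X ∧ ∀ p : ℕ, p ^ b ≤ X → p ≤ y := by
    refine ⟨Nat.findGreatest (fun y => y ^ b ≤ X) X, ?_, ?_, fun p hp => ?_⟩
    · exact Nat.le_findGreatest (by omega) (by rw [one_pow]; omega)
    · exact Nat.findGreatest_spec (P := fun y => y ^ b ≤ X) (m := 1) (by omega)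
        (by rw [one_pow]; omega)
    · refine Nat.le_findGreatest ?_ hp
      exact (Nat.le_self_pow hb.ne' p).trans hp
  have hy0 : (0 : ℝ) < y := by exact_mod_cast hy1
  have hly : b * Real.log y ≤ Real.log X := by
    rw [← Real.log_pow]
    exact Real.log_le_log (by positivity) (by exact_mod_cast hy2)
  -- Markov
  obtain ⟨g, hg⟩ : ∃ g : ℕ → ℝ, ∀ c, g c = ∑ p ∈ Nat.primesLE y,
    (if p ∣ c then Real.log p else 0) := ⟨_, fun _ => rfl⟩
  have hlp : ∀ p ∈ Nat.primesLE y, 0 ≤ Real.log p := fun p hp =>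
    Real.log_nonneg (by exact_mod_cast (Nat.mem_primesLE.1 hp).2.one_le)
  have h1 : ∀ c ∈ S, Real.log X ≤ a * g c := by
    intro c hc
    obtain ⟨hc0, hcX, hc⟩ := hS c hc
    obtain ⟨R, hR⟩ : ∃ R, R = c.primeFactors.filter (fun p => ¬ p ∣ M ∧ p ^ b ≤ X) := ⟨_, rfl⟩
    rw [← hR] at hc
    have hRp : ∀ p ∈ R, p.Prime ∧ p ∣ c ∧ p ^ b ≤ X := by
      intro p hp
      rw [hR, mem_filter] at hp
      exact ⟨Nat.prime_of_mem_primeFactors hp.1, Nat.dvd_of_mem_primeFactors hp.1, hp.2.2⟩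
    have h2 : Real.log X ≤ a * Real.log ((∏ p ∈ R, p : ℕ) : ℝ) := by
      rw [← Real.log_pow]
      exact Real.log_le_log hX0 (by exact_mod_cast hc.le)
    have h3 : Real.log ((∏ p ∈ R, p : ℕ) : ℝ) = ∑ p ∈ R, Real.log p := by
      rw [Nat.cast_prod, Real.log_prod]
      intro p hp
      exact_mod_cast (hRp p hp).1.ne_zero
    have h4 : ∑ p ∈ R, Real.log p ≤ g c := by
      have h5 : ∑ p ∈ R, Real.log p = ∑ p ∈ R, if p ∣ c then Real.log p else 0 :=
        sum_congr rfl fun p hp => by rw [if_pos (hRp p hp).2.1]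
      rw [h5, hg]
      refine sum_le_sum_of_subset_of_nonneg (fun p hp => ?_) fun p hp _ => ?_
      · exact Nat.mem_primesLE.2 ⟨hy3 p (hRp p hp).2.2, (hRp p hp).1⟩
      · split_ifs
        · exact hlp p hp
        · exact le_rfl
    rw [h3] at h2
    exact h2.trans (mul_le_mul_of_nonneg_left h4 ha0.le)
  have h2 : ∑ c ∈ Ioc 0 X, g c ≤ X * (Real.log y + Real.log 4) := by
    have h3 : ∑ c ∈ Ioc 0 X, g c =
        ∑ p ∈ Nat.primesLE y, (((Ioc 0 X).filter (p ∣ ·)).card : ℝ) * Real.log p := by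
      simp only [hg]
      rw [sum_comm]
      refine sum_congr rfl fun p _ => ?_
      rw [← sum_ind, sum_mul]
      exact sum_congr rfl fun c _ => by split_ifs <;> ring
    rw [h3]
    have h4 : ∀ p ∈ Nat.primesLE y, (((Ioc 0 X).filter (p ∣ ·)).card : ℝ) * Real.log p ≤
        X * (Real.log p / p) := by
      intro p hp
      refine (mul_le_mul_of_nonneg_right (card_dvd X p).1 (hlp p hp)).trans (le_of_eq ?_)
      ring
    refine (sum_le_sum h4).trans ?_
    rw [← mul_sum]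
    exact mul_le_mul_of_nonneg_left (mertens_up y hy1) hX0.le
  have h3 : (S.card : ℝ) * Real.log X ≤ a * (X * (Real.log y + Real.log 4)) := by
    have hSI : S ⊆ Ioc 0 X := fun c hc => mem_Ioc.2 ⟨(hS c hc).1, (hS c hc).2.1⟩
    have hg0 : ∀ c, 0 ≤ g c := fun c => by
      rw [hg]
      refine sum_nonneg fun p hp => ?_
      split_ifs
      · exact hlp p hp
      · exact le_rfl
    calc (S.card : ℝ) * Real.log X = ∑ c ∈ S, Real.log X := by rw [sum_const, nsmul_eq_mul]
      _ ≤ ∑ c ∈ S, a * g c := sum_le_sum h1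
      _ ≤ ∑ c ∈ Ioc 0 X, a * g c :=
          sum_le_sum_of_subset_of_nonneg hSI fun c _ _ => mul_nonneg ha0.le (hg0 c)
      _ = a * ∑ c ∈ Ioc 0 X, g c := by rw [mul_sum]
      _ ≤ _ := mul_le_mul_of_nonneg_left h2 ha0.le
  have h4 : Real.log y ≤ Real.log X / b := by
    rw [le_div_iff₀ hb0]
    linarith
  have h5 : (S.card : ℝ) * Real.log X ≤ a * (X * (Real.log X / b + Real.log 4)) :=
    h3.trans (mul_le_mul_of_nonneg_left (mul_le_mul_of_nonneg_left (by linarith) hX0.le) ha0.le)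
  have h6 : (S.card : ℝ) ≤ a * (X * (Real.log X / b + Real.log 4)) / Real.log X := by
    rwa [le_div_iff₀ hlX]
  refine h6.trans (le_of_eq ?_)
  field_simp

end Pool.Agent.HP
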